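import Mathlib

/-!
Lower bound for minimum-cost Euclidean perfect matching on the real RAM.
-/

open MeasureTheory
open scoped Nat ENNReal

namespace Pool.Agent.Results.MP_76a089_lc.RealRamLowerBound

/-- The plane. -/
abbrev Plane := EuclideanSpace ℝ (Fin 2)

/-- A perfect matching of `2 n` labelled points: an involution without fixed points
(`σ i` is the partner of point `i`). -/
def IsMatching {n : ℕ} (σ : Equiv.Perm (Fin (2 * n))) : Prop :=
  ∀ i, σ (σ i) = i ∧ σ i ≠ i

/-- The cost of a matching: the sum of the Euclidean lengths of its `n` edges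
(the sum over all points counts each edge twice). -/
noncomputable def cost {n : ℕ} (p : Fin (2 * n) → Plane) (σ : Equiv.Perm (Fin (2 * n))) : ℝ :=
  (∑ i, dist (p i) (p (σ i))) / 2

/-- Unit-cost instructions of the real RAM.  `I` is the integer memory (used for addressing), `R`
the real memory.  All binary operations on integers, and all binary operations on reals, are
allowed as unit-cost instructions. -/
inductive Instr where
  /-- `I[a] := c` -/
  | iConst (a : ℕ) (c : ℤ)
  /-- `I[a] := f I[b] I[c]` -/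
  | iOp (f : ℤ → ℤ → ℤ) (a b c : ℕ)
  /-- `I[a] := I[I[b]]` -/
  | iLoad (a b : ℕ)
  /-- `I[I[a]] := I[b]` -/
  | iStore (a b : ℕ)
  /-- if `I[a] < I[b]` then go to instruction `l` -/
  | iJump (a b l : ℕ)
  /-- `R[a] := x` -/
  | rConst (a : ℕ) (x : ℝ)
  /-- `R[a] := f R[b] R[c]` -/
  | rOp (f : ℝ → ℝ → ℝ) (a b c : ℕ)
  /-- `R[a] := I[b]` -/
  | rOfInt (a b : ℕ)
  /-- `R[a] := R[I[b]]` -/
  | rLoad (a b : ℕ)
  /-- `R[I[a]] := R[b]` -/
  | rStore (a b : ℕ)
  /-- if `R[a] < R[b]` then go to instruction `l` -/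
  | rJump (a b l : ℕ)
  /-- stop -/
  | halt

/-- A program is a finite list of instructions. -/
abbrev Program := List Instr

/-- A configuration: program counter, integer memory, real memory. -/
structure State where
  pc : ℕ
  int : ℕ → ℤ
  real : ℕ → ℝ

/-- The instruction at position `k` (beyond the end of the program: `halt`). -/
def fetch (Q : Program) (k : ℕ) : Instr := (Q[k]?).getD Instr.halt

open Classical in
/-- One step of computation. -/
noncomputable def step (Q : Program) (s : State) : State :=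
  match fetch Q s.pc with
  | .iConst a c => ⟨s.pc + 1, Function.update s.int a c, s.real⟩
  | .iOp f a b c => ⟨s.pc + 1, Function.update s.int a (f (s.int b) (s.int c)), s.real⟩
  | .iLoad a b => ⟨s.pc + 1, Function.update s.int a (s.int (s.int b).toNat), s.real⟩
  | .iStore a b => ⟨s.pc + 1, Function.update s.int (s.int a).toNat (s.int b), s.real⟩
  | .iJump a b l => ⟨if s.int a < s.int b then l else s.pc + 1, s.int, s.real⟩
  | .rConst a x => ⟨s.pc + 1, s.int, Function.update s.real a x⟩
  | .rOp f a b c => ⟨s.pc + 1, s.int, Function.update s.real a (f (s.real b) (s.real c))⟩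
  | .rOfInt a b => ⟨s.pc + 1, s.int, Function.update s.real a ((s.int b : ℤ) : ℝ)⟩
  | .rLoad a b => ⟨s.pc + 1, s.int, Function.update s.real a (s.real (s.int b).toNat)⟩
  | .rStore a b => ⟨s.pc + 1, s.int, Function.update s.real (s.int a).toNat (s.real b)⟩
  | .rJump a b l => ⟨if s.real a < s.real b then l else s.pc + 1, s.int, s.real⟩
  | .halt => s

/-- The configuration after `t` steps. -/
noncomputable def run (Q : Program) (s : State) (t : ℕ) : State := (step Q)^[t] s

/-- The program has stopped. -/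
def Halted (Q : Program) (s : State) : Prop :=
  match fetch Q s.pc with
  | .halt => True
  | _ => False

/-- The input: `I[0] = n`, the coordinates of point `i` are `R[2 i]` and `R[2 i + 1]`,
everything else is `0`. -/
noncomputable def input {n : ℕ} (p : Fin (2 * n) → Plane) : State where
  pc := 0
  int := fun k => if k = 0 then (n : ℤ) else 0
  real := fun k => if h : k / 2 < 2 * n then p ⟨k / 2, h⟩ ⟨k % 2, Nat.mod_lt _ (by norm_num)⟩ else 0

/-- The running time on input `p`: the number of steps until the program stops. -/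
noncomputable def time {n : ℕ} (Q : Program) (p : Fin (2 * n) → Plane) : ℕ :=
  sInf {t | Halted Q (run Q (input p) t)}

/-- On input `p` the program stops and has then written into `I[1], ..., I[2 n]` the partners of
the points `0, ..., 2 n - 1` in a perfect matching whose cost is at most `ρ` times the cost of
every perfect matching of the points.  For `ρ = 1` this is a minimum-cost matching. -/
def Solves {n : ℕ} (Q : Program) (ρ : ℝ) (p : Fin (2 * n) → Plane) : Prop :=
  ∃ σ : Equiv.Perm (Fin (2 * n)), IsMatching σ ∧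
    (∀ τ : Equiv.Perm (Fin (2 * n)), IsMatching τ → cost p σ ≤ ρ * cost p τ) ∧
    ∃ t, Halted Q (run Q (input p) t) ∧
      ∀ i : Fin (2 * n), (run Q (input p) t).int (i + 1) = ((σ i : ℕ) : ℤ)

/-! ### The discrete part of the computation -/

/-- discrete part of a configuration -/
def disc (s : State) : ℕ × (ℕ → ℤ) := (s.pc, s.int)

open Classical in
/-- outcome of the real comparison made at this step -/
noncomputable def outcome (Q : Program) (s : State) : Bool :=
  match fetch Q s.pc with
  | .rJump a b _ => decide (s.real a < s.real b)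
  | _ => false

/-- discrete step, given the outcome of the comparison -/
def dstep (Q : Program) (o : Bool) (d : ℕ × (ℕ → ℤ)) : ℕ × (ℕ → ℤ) :=
  match fetch Q d.1 with
  | .iConst a c => (d.1 + 1, Function.update d.2 a c)
  | .iOp f a b c => (d.1 + 1, Function.update d.2 a (f (d.2 b) (d.2 c)))
  | .iLoad a b => (d.1 + 1, Function.update d.2 a (d.2 (d.2 b).toNat))
  | .iStore a b => (d.1 + 1, Function.update d.2 (d.2 a).toNat (d.2 b))
  | .iJump a b l => (if d.2 a < d.2 b then l else d.1 + 1, d.2)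
  | .rConst _ _ => (d.1 + 1, d.2)
  | .rOp _ _ _ _ => (d.1 + 1, d.2)
  | .rOfInt _ _ => (d.1 + 1, d.2)
  | .rLoad _ _ => (d.1 + 1, d.2)
  | .rStore _ _ => (d.1 + 1, d.2)
  | .rJump _ _ l => (if o then l else d.1 + 1, d.2)
  | .halt => d

lemma disc_step (Q : Program) (s : State) : disc (step Q s) = dstep Q (outcome Q s) (disc s) := by
  unfold disc step dstep outcome
  cases h : fetch Q s.pc <;> simp

lemma run_succ (Q : Program) (s : State) (t : ℕ) : run Q s (t + 1) = step Q (run Q s t) := by
  unfold run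
  rw [Function.iterate_succ_apply']

lemma disc_run_eq (Q : Program) (s s' : State) (h0 : disc s = disc s') (t : ℕ)
    (h : ∀ k < t, outcome Q (run Q s k) = outcome Q (run Q s' k)) :
    disc (run Q s t) = disc (run Q s' t) := by
  induction t with
  | zero => simpa [run] using h0
  | succ t ih =>
    rw [run_succ, run_succ, disc_step, disc_step, ih (fun k hk => h k (by omega)), h t (by omega)]

lemma halted_iff_disc (Q : Program) (s s' : State) (h : disc s = disc s') :
    Halted Q s ↔ Halted Q s' := by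
  have : s.pc = s'.pc := congrArg Prod.fst h
  unfold Halted
  rw [this]

lemma step_of_halted (Q : Program) (s : State) (h : Halted Q s) : step Q s = s := by
  unfold Halted at h
  unfold step
  cases hf : fetch Q s.pc <;> simp_all

lemma run_of_halted (Q : Program) (s : State) (t : ℕ) (h : Halted Q (run Q s t)) (k : ℕ) :
    run Q s (t + k) = run Q s t := by
  induction k with
  | zero => rfl
  | succ k ih => rw [← Nat.add_assoc, run_succ, ih, step_of_halted Q _ h]

section time

variable {n : ℕ} (Q : Program) (p : Fin (2 * n) → Plane)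

lemma halted_time (h : ∃ t, Halted Q (run Q (input p) t)) :
    Halted Q (run Q (input p) (time Q p)) := by
  have := Nat.sInf_mem (s := {t | Halted Q (run Q (input p) t)}) h
  exact this

lemma time_le {t : ℕ} (h : Halted Q (run Q (input p) t)) : time Q p ≤ t := Nat.sInf_le h

lemma run_eq_run_time {t : ℕ} (h : Halted Q (run Q (input p) t)) :
    run Q (input p) t = run Q (input p) (time Q p) := by
  obtain ⟨k, rfl⟩ := Nat.exists_eq_add_of_le (time_le Q p h)
  exact run_of_halted Q _ _ (halted_time Q p ⟨_, h⟩) k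

end time

/-! ### Counting -/

lemma card_cylinder (T t : ℕ) (ht : t ≤ T) (f : ℕ → Bool) :
    (Finset.univ.filter (fun b : Fin T → Bool => ∀ k : Fin T, (k : ℕ) < t → b k = f k)).card
      = 2 ^ (T - t) := by
  have h1 : (Finset.univ.filter (fun b : Fin T → Bool => ∀ k : Fin T, (k : ℕ) < t → b k = f k))
      = Fintype.piFinset (fun k : Fin T => if (k : ℕ) < t then {f k} else Finset.univ) := by
    ext b
    simp only [Finset.mem_filter, Finset.mem_univ, true_and, Fintype.mem_piFinset]
    refine forall_congr' fun k => ?_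
    by_cases hk : (k : ℕ) < t <;> simp [hk]
  rw [h1, Fintype.card_piFinset]
  have h2 : ∀ k : Fin T, (if (k : ℕ) < t then ({f k} : Finset Bool) else Finset.univ).card
      = if (k : ℕ) < t then 1 else 2 := by
    intro k
    split_ifs <;> simp
  simp only [h2]
  rw [Fin.prod_univ_eq_prod_range (fun k => if k < t then 1 else 2) T]
  obtain ⟨r, rfl⟩ := Nat.exists_eq_add_of_le ht
  rw [Finset.prod_range_add]
  have h3 : ∏ x ∈ Finset.range t, (if x < t then 1 else 2) = 1 :=
    Finset.prod_eq_one fun x hx => by simp [Finset.mem_range.1 hx]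
  rw [h3]
  simp

lemma kraft {ι : Type*} (S : Finset ι) (tt : ι → ℕ) (code : ι → ℕ → Bool)
    (h : ∀ x ∈ S, ∀ y ∈ S, tt x ≤ tt y → (∀ k < tt x, code x k = code y k) → x = y) :
    ∑ x ∈ S, ((1 : ℝ) / 2) ^ (tt x) ≤ 1 := by
  classical
  obtain ⟨T, hT⟩ : ∃ T, ∀ x ∈ S, tt x ≤ T :=
    ⟨S.sup tt, fun x hx => Finset.le_sup (f := tt) hx⟩
  let C : ι → Finset (Fin T → Bool) := fun x =>
    Finset.univ.filter (fun b : Fin T → Bool => ∀ k : Fin T, (k : ℕ) < tt x → b k = code x k)
  have hdisj : ∀ x ∈ S, ∀ y ∈ S, x ≠ y → Disjoint (C x) (C y) := by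
    intro x hx y hy hxy
    rw [Finset.disjoint_left]
    intro b hbx hby
    simp only [C, Finset.mem_filter, Finset.mem_univ, true_and] at hbx hby
    rcases le_total (tt x) (tt y) with hle | hle
    · apply hxy
      refine h x hx y hy hle fun k hk => ?_
      have hkT : k < T := lt_of_lt_of_le hk (hT x hx)
      rw [← hbx ⟨k, hkT⟩ hk, ← hby ⟨k, hkT⟩ (lt_of_lt_of_le hk hle)]
    · apply hxy
      refine (h y hy x hx hle fun k hk => ?_).symm
      have hkT : k < T := lt_of_lt_of_le hk (hT y hy)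
      rw [← hby ⟨k, hkT⟩ hk, ← hbx ⟨k, hkT⟩ (lt_of_lt_of_le hk hle)]
  have hcard : (S.biUnion C).card = ∑ x ∈ S, 2 ^ (T - tt x) := by
    rw [Finset.card_biUnion hdisj]
    refine Finset.sum_congr rfl fun x hx => ?_
    exact card_cylinder T (tt x) (hT x hx) (code x)
  have hle : (S.biUnion C).card ≤ 2 ^ T := by
    refine (Finset.card_le_univ _).trans ?_
    simp
  have hreal : ∑ x ∈ S, (2 : ℝ) ^ (T - tt x) ≤ 2 ^ T := by
    have : ((∑ x ∈ S, 2 ^ (T - tt x) : ℕ) : ℝ) ≤ ((2 ^ T : ℕ) : ℝ) := by
      exact_mod_cast hcard ▸ hle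
    simpa using this
  have hx : ∀ x ∈ S, ((1 : ℝ) / 2) ^ (tt x) = (2 : ℝ) ^ (T - tt x) / 2 ^ T := by
    intro x hx
    have h1 : (2 : ℝ) ^ T = 2 ^ (T - tt x) * 2 ^ (tt x) := by
      rw [← pow_add, Nat.sub_add_cancel (hT x hx)]
    rw [h1, one_div, inv_pow]
    have h2 : (2 : ℝ) ^ (T - tt x) ≠ 0 := by positivity
    have h3 : (2 : ℝ) ^ (tt x) ≠ 0 := by positivity
    field_simp
  rw [Finset.sum_congr rfl hx, ← Finset.sum_div]
  exact div_le_one_of_le₀ hreal (by positivity)

lemma average_bound {ι : Type*} (S : Finset ι) (hS : S.Nonempty) (tt : ι → ℕ)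
    (h : ∑ x ∈ S, ((1 : ℝ) / 2) ^ (tt x) ≤ 1) :
    Real.logb 2 S.card ≤ (∑ x ∈ S, (tt x : ℝ)) / S.card := by
  have hN : (0 : ℝ) < S.card := by exact_mod_cast hS.card_pos
  have hw : ∑ _x ∈ S, ((1 : ℝ) / S.card) = 1 := by
    rw [Finset.sum_const, nsmul_eq_mul, mul_one_div_cancel hN.ne']
  have hamgm := Real.geom_mean_le_arith_mean_weighted S (fun _ => (1 : ℝ) / S.card)
    (fun x => ((1 : ℝ) / 2) ^ (tt x)) (fun _ _ => by positivity) hw (fun _ _ => by positivity)
  rw [← Finset.mul_sum] at hamgm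
  have h1 : ∏ x ∈ S, (((1 : ℝ) / 2) ^ (tt x)) ^ ((1 : ℝ) / S.card)
      = (2 : ℝ) ^ (-((∑ x ∈ S, (tt x : ℝ)) / S.card)) := by
    have h2 : ∀ x ∈ S, (((1 : ℝ) / 2) ^ (tt x)) ^ ((1 : ℝ) / S.card)
        = (2 : ℝ) ^ (-((tt x : ℝ) / S.card)) := by
      intro x _
      rw [one_div, inv_pow, ← Real.rpow_natCast, ← Real.rpow_neg (by norm_num),
        ← Real.rpow_mul (by norm_num)]
      congr 1
      ring
    rw [Finset.prod_congr rfl h2, ← Real.rpow_sum_of_pos (by norm_num)]
    congr 1
    rw [Finset.sum_neg_distrib, Finset.sum_div]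
  rw [h1] at hamgm
  have h3 : (2 : ℝ) ^ (-((∑ x ∈ S, (tt x : ℝ)) / S.card)) ≤ 1 / S.card := by
    refine hamgm.trans ?_
    calc 1 / (S.card : ℝ) * ∑ x ∈ S, ((1 : ℝ) / 2) ^ (tt x) ≤ 1 / (S.card : ℝ) * 1 :=
          mul_le_mul_of_nonneg_left h (by positivity)
      _ = 1 / S.card := mul_one _
  rw [Real.rpow_neg (by norm_num), one_div] at h3
  have h4 : (S.card : ℝ) ≤ 2 ^ ((∑ x ∈ S, (tt x : ℝ)) / S.card) :=
    (inv_le_inv₀ (by positivity) hN).1 h3
  calc Real.logb 2 S.card ≤ Real.logb 2 (2 ^ ((∑ x ∈ S, (tt x : ℝ)) / S.card)) :=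
        Real.logb_le_logb_of_le (by norm_num) hN h4
    _ = _ := Real.logb_rpow (by norm_num) (by norm_num)

/-! ### The hard inputs -/

/-- the hard input belonging to a matching `σ`: point `i` is `(δ i, min(i, σ i))` -/
noncomputable def inst {n : ℕ} (δ : ℝ) (σ : Equiv.Perm (Fin (2 * n))) (i : Fin (2 * n)) : Plane :=
  !₂[δ * (i : ℕ), ((min (i : ℕ) (σ i : ℕ) : ℕ) : ℝ)]

lemma inst_zero {n : ℕ} (δ : ℝ) (σ : Equiv.Perm (Fin (2 * n))) (i : Fin (2 * n)) :
    inst δ σ i 0 = δ * (i : ℕ) := by simp [inst]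

lemma inst_one {n : ℕ} (δ : ℝ) (σ : Equiv.Perm (Fin (2 * n))) (i : Fin (2 * n)) :
    inst δ σ i 1 = ((min (i : ℕ) (σ i : ℕ) : ℕ) : ℝ) := by simp [inst]

lemma cost_self {n : ℕ} {δ : ℝ} (hδ : 0 ≤ δ) (σ : Equiv.Perm (Fin (2 * n))) (hσ : IsMatching σ) :
    cost (inst δ σ) σ ≤ 2 * (n : ℝ) ^ 2 * δ := by
  have h1 : ∀ i, dist (inst δ σ i) (inst δ σ (σ i)) ≤ δ * (2 * n) := by
    intro i
    have hy : inst δ σ i 1 = inst δ σ (σ i) 1 := by
      rw [inst_one, inst_one, (hσ i).1, min_comm]
    rw [EuclideanSpace.dist_eq, Fin.sum_univ_two, hy, dist_self, inst_zero, inst_zero,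
      zero_pow two_ne_zero, add_zero, Real.sqrt_sq dist_nonneg, Real.dist_eq, ← mul_sub, abs_mul,
      abs_of_nonneg hδ]
    refine mul_le_mul_of_nonneg_left ?_ hδ
    have ha : ((i : ℕ) : ℝ) ≤ 2 * n := by exact_mod_cast i.2.le
    have hb : ((σ i : ℕ) : ℝ) ≤ 2 * n := by exact_mod_cast (σ i).2.le
    have ha0 : (0 : ℝ) ≤ ((i : ℕ) : ℝ) := Nat.cast_nonneg _
    have hb0 : (0 : ℝ) ≤ ((σ i : ℕ) : ℝ) := Nat.cast_nonneg _
    rw [abs_le]
    constructor <;> linarith
  unfold cost
  have h2 : ∑ i, dist (inst δ σ i) (inst δ σ (σ i)) ≤ ∑ _i : Fin (2 * n), δ * (2 * n) :=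
    Finset.sum_le_sum fun i _ => h1 i
  rw [Finset.sum_const, Finset.card_univ, Fintype.card_fin, nsmul_eq_mul] at h2
  push_cast at h2
  nlinarith

lemma cost_other {n : ℕ} {δ : ℝ} (σ τ : Equiv.Perm (Fin (2 * n))) (hσ : IsMatching σ)
    (hτ : IsMatching τ) (hne : τ ≠ σ) : 1 ≤ cost (inst δ σ) τ := by
  obtain ⟨i, hi⟩ : ∃ i, τ i ≠ σ i := by
    by_contra hcon
    push Not at hcon
    exact hne (Equiv.ext hcon)
  have key : ∀ i, τ i ≠ σ i → 1 ≤ dist (inst δ σ i) (inst δ σ (τ i)) := by
    intro i hi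
    have hmin : min (i : ℕ) (σ i : ℕ) ≠ min (τ i : ℕ) (σ (τ i) : ℕ) := by
      intro heq
      rcases min_choice (i : ℕ) (σ i : ℕ) with h1 | h1 <;>
        rcases min_choice (τ i : ℕ) (σ (τ i) : ℕ) with h2 | h2 <;> rw [h1, h2] at heq
      · exact (hτ i).2 (Fin.ext heq).symm
      · have h3 : i = σ (τ i) := Fin.ext heq
        apply hi
        have h4 := congrArg σ h3
        rw [(hσ (τ i)).1] at h4
        exact h4.symm
      · exact hi (Fin.ext heq).symm
      · have h3 : σ i = σ (τ i) := Fin.ext heq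
        exact (hτ i).2 (σ.injective h3).symm
    have hreal : (1 : ℝ) ≤ |((min (i : ℕ) (σ i : ℕ) : ℕ) : ℝ)
        - ((min (τ i : ℕ) (σ (τ i) : ℕ) : ℕ) : ℝ)| := by
      have hint : (1 : ℤ) ≤ |((min (i : ℕ) (σ i : ℕ) : ℕ) : ℤ)
          - ((min (τ i : ℕ) (σ (τ i) : ℕ) : ℕ) : ℤ)| := by
        apply Int.one_le_abs
        intro h0
        apply hmin
        have := sub_eq_zero.1 h0
        exact_mod_cast this
      exact_mod_cast hint
    refine hreal.trans ?_
    have h5 : |inst δ σ i 1 - inst δ σ (τ i) 1| ≤ dist (inst δ σ i) (inst δ σ (τ i)) := by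
      rw [EuclideanSpace.dist_eq, Fin.sum_univ_two, ← Real.dist_eq]
      apply Real.le_sqrt_of_sq_le
      have : 0 ≤ dist (inst δ σ i 0) (inst δ σ (τ i) 0) ^ 2 := by positivity
      linarith
    rw [inst_one, inst_one] at h5
    exact h5
  have hi' : τ (τ i) ≠ σ (τ i) := by
    rw [(hτ i).1]
    intro h
    apply hi
    have h4 := congrArg σ h
    rw [(hσ (τ i)).1] at h4
    exact h4.symm
  have hsum : dist (inst δ σ i) (inst δ σ (τ i)) + dist (inst δ σ (τ i)) (inst δ σ (τ (τ i)))
      ≤ ∑ j, dist (inst δ σ j) (inst δ σ (τ j)) := by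
    have hij : i ≠ τ i := fun h => (hτ i).2 h.symm
    rw [← Finset.sum_pair (f := fun j => dist (inst δ σ j) (inst δ σ (τ j))) hij]
    exact Finset.sum_le_sum_of_subset_of_nonneg (Finset.subset_univ _)
      (fun _ _ _ => dist_nonneg)
  have k1 := key i hi
  have k2 := key (τ i) hi'
  unfold cost
  linarith

open Classical in
/-- the set of all perfect matchings -/
noncomputable def matchings (n : ℕ) : Finset (Equiv.Perm (Fin (2 * n))) :=
  Finset.univ.filter IsMatching

lemma isMatching_iff {n : ℕ} (σ : Equiv.Perm (Fin (2 * n))) :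
    IsMatching σ ↔ σ.cycleType = Multiset.replicate n 2 := by
  classical
  constructor
  · intro h
    have hsq : σ ^ 2 = 1 := by
      ext i
      rw [pow_two]
      simp [(h i).1]
    have : Fact (Nat.Prime 2) := ⟨Nat.prime_two⟩
    have h1 := Equiv.Perm.cycleType_of_pow_prime_eq_one hsq
    have hsupp : σ.support = Finset.univ := by
      ext i
      simp [(h i).2]
    have h2 := Equiv.Perm.sum_cycleType σ
    rw [hsupp, Finset.card_univ, Fintype.card_fin, h1, Multiset.sum_replicate, smul_eq_mul] at h2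
    have h3 : Multiset.card σ.cycleType = n := by omega
    rw [h1, h3]
  · intro h
    have hsum := Equiv.Perm.sum_cycleType σ
    rw [h, Multiset.sum_replicate, smul_eq_mul] at hsum
    have hsupp : σ.support = Finset.univ := by
      rw [← Finset.card_eq_iff_eq_univ, Fintype.card_fin]
      omega
    have hsq : σ ^ 2 = 1 := by
      rw [← orderOf_dvd_iff_pow_eq_one, ← Equiv.Perm.lcm_cycleType, h]
      apply Multiset.lcm_dvd.2
      intro b hb
      rw [Multiset.eq_of_mem_replicate hb]
    intro i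
    constructor
    · have := Equiv.congr_fun hsq i
      simpa [pow_two] using this
    · have : i ∈ σ.support := by rw [hsupp]; exact Finset.mem_univ i
      exact Equiv.Perm.mem_support.1 this

lemma two_pow_mul_doubleFactorial (n : ℕ) (hn : 0 < n) :
    (2 * n)! = (2 ^ n * n !) * (2 * n - 1)‼ := by
  obtain ⟨m, rfl⟩ := Nat.exists_eq_succ_of_ne_zero hn.ne'
  have h := Nat.factorial_eq_mul_doubleFactorial (2 * (m + 1) - 1)
  have h1 : 2 * (m + 1) - 1 + 1 = 2 * (m + 1) := by omega
  rw [h1] at h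
  rw [Nat.succ_eq_add_one, h, Nat.doubleFactorial_two_mul]

lemma card_matchings (n : ℕ) (hn : 0 < n) : (matchings n).card = (2 * n - 1)‼ := by
  classical
  have h1 : matchings n = Finset.univ.filter
      (fun σ : Equiv.Perm (Fin (2 * n)) => σ.cycleType = Multiset.replicate n 2) := by
    ext σ
    simp only [matchings, Finset.mem_filter, Finset.mem_univ, true_and]
    exact isMatching_iff σ
  rw [h1, Equiv.Perm.card_of_cycleType, if_pos]
  · rw [Fintype.card_fin, Multiset.sum_replicate, Multiset.prod_replicate, smul_eq_mul,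
      mul_comm n 2, Nat.sub_self, Nat.factorial_zero, one_mul,
      Multiset.toFinset_replicate, if_neg hn.ne', Finset.prod_singleton, Multiset.count_replicate_self]
    rw [two_pow_mul_doubleFactorial n hn]
    exact Nat.mul_div_cancel_left _ (by positivity)
  · constructor
    · rw [Fintype.card_fin, Multiset.sum_replicate, smul_eq_mul, mul_comm]
    · intro a ha
      rw [Multiset.eq_of_mem_replicate ha]

/-- `(2 n - 1)!! ≥ ((n + 1) / 2) ^ n` -/
lemma doubleFactorial_lower (n : ℕ) (hn : 0 < n) :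
    (((n : ℝ) + 1) / 2) ^ n ≤ ((2 * n - 1)‼ : ℕ) := by
  have h1 : (n + 1) ^ n ≤ 2 ^ n * (2 * n - 1)‼ := by
    have h2 := Nat.pow_succ_le_ascFactorial (n + 1) n
    have h3 := Nat.factorial_mul_ascFactorial n n
    have h4 := two_pow_mul_doubleFactorial n hn
    rw [show n + n = 2 * n by ring, h4] at h3
    have h5 : (n + 1).ascFactorial n = 2 ^ n * (2 * n - 1)‼ := by
      have hpos : 0 < n ! := Nat.factorial_pos n
      apply Nat.eq_of_mul_eq_mul_left hpos
      rw [h3]
      ring
    rw [← h5]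
    exact h2
  have h6 : ((n : ℝ) + 1) ^ n ≤ 2 ^ n * ((2 * n - 1)‼ : ℕ) := by exact_mod_cast h1
  rw [div_pow, div_le_iff₀ (by positivity)]
  linarith


/-- tangent line inequality for `x log₂ x` -/
lemma tangent {x a : ℝ} (hx : 0 ≤ x) (ha : 0 < a) :
    a * Real.logb 2 a + ((Real.log a + 1) / Real.log 2) * (x - a) ≤ x * Real.logb 2 x := by
  have hlog2 : 0 < Real.log 2 := Real.log_pos (by norm_num)
  have key : a * Real.log a + (Real.log a + 1) * (x - a) ≤ x * Real.log x := by
    rcases hx.eq_or_lt with h0 | h0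
    · rw [← h0]
      simp only [zero_mul]
      nlinarith
    · have h1 := Real.log_le_sub_one_of_pos (div_pos ha h0)
      rw [Real.log_div ha.ne' h0.ne'] at h1
      have h2 : x * (Real.log a - Real.log x) ≤ x * (a / x - 1) :=
        mul_le_mul_of_nonneg_left h1 h0.le
      have h3 : x * (a / x - 1) = a - x := by
        field_simp
      nlinarith
  have h4 : a * Real.logb 2 a + ((Real.log a + 1) / Real.log 2) * (x - a)
      = (a * Real.log a + (Real.log a + 1) * (x - a)) / Real.log 2 := by
    unfold Real.logb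
    field_simp
  have h5 : x * Real.logb 2 x = x * Real.log x / Real.log 2 := by
    unfold Real.logb
    ring
  rw [h4, h5]
  exact div_le_div_of_nonneg_right key hlog2.le

/-- from a pointwise entropy bound to the expectation, for success probability at least `q` -/
lemma expectation_bound {ι Ω : Type*} [MeasurableSpace Ω] (μ : Measure Ω) [IsProbabilityMeasure μ]
    (S : Finset ι) (hS : S.Nonempty) (T : Ω → ι → ℕ) (A : ι → Set Ω) (q : ℝ) (hq : 0 < q)
    (hA : ∀ p ∈ S, MeasurableSet (A p)) (hAq : ∀ p ∈ S, ENNReal.ofReal q ≤ μ (A p))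
    (hT : ∀ p ∈ S, Measurable fun ω => T ω p)
    (hpt : ∀ ω, (∑ p ∈ S, (A p).indicator (fun _ => (1 : ℝ)) ω) *
      Real.logb 2 (∑ p ∈ S, (A p).indicator (fun _ => (1 : ℝ)) ω) ≤ ∑ p ∈ S, (T ω p : ℝ)) :
    ∃ p ∈ S, ENNReal.ofReal (q * Real.logb 2 (q * S.card)) ≤ ∫⁻ ω, (T ω p : ℝ≥0∞) ∂μ := by
  by_contra hcon
  push Not at hcon
  have hN : (0 : ℝ) < S.card := by exact_mod_cast hS.card_pos
  set a : ℝ := q * S.card with ha
  have ha0 : 0 < a := by positivity
  rcases lt_or_ge a 1 with ha1 | ha1
  · obtain ⟨p, hp⟩ := hS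
    have h1 := hcon p hp
    have h2 : q * Real.logb 2 a ≤ 0 := by
      have : Real.logb 2 a ≤ 0 := Real.logb_nonpos (by norm_num) ha0.le ha1.le
      nlinarith
    rw [ENNReal.ofReal_of_nonpos h2] at h1
    exact absurd h1 (not_lt.2 zero_le)
  set s : ℝ := (Real.log a + 1) / Real.log 2 with hs
  have hs0 : 0 ≤ s := by
    have : 0 ≤ Real.log a := Real.log_nonneg ha1
    have : 0 < Real.log 2 := Real.log_pos (by norm_num)
    positivity
  have hlog0 : 0 ≤ Real.logb 2 a := Real.logb_nonneg (by norm_num) ha1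
  have h1 : ∑ p ∈ S, ∫⁻ ω, (T ω p : ℝ≥0∞) ∂μ < ∑ _p ∈ S, ENNReal.ofReal (q * Real.logb 2 a) :=
    ENNReal.sum_lt_sum_of_nonempty hS hcon
  have hm : ∀ p ∈ S, Measurable fun ω => (T ω p : ℝ≥0∞) := fun p hp =>
    (measurable_from_top (f := fun k : ℕ => (k : ℝ≥0∞))).comp (hT p hp)
  rw [← lintegral_finsetSum' _ (fun p hp => (hm p hp).aemeasurable), Finset.sum_const,
    nsmul_eq_mul] at h1
  have hNa : (S.card : ℝ≥0∞) * ENNReal.ofReal (q * Real.logb 2 a)
      = ENNReal.ofReal (a * Real.logb 2 a) := by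
    have h2 : a * Real.logb 2 a = (S.card : ℝ) * (q * Real.logb 2 a) := by
      have h3 : a = S.card * q := by rw [ha, mul_comm]
      nth_rewrite 1 [h3]
      ring
    rw [h2, ENNReal.ofReal_mul (Nat.cast_nonneg _), ENNReal.ofReal_natCast]
  rw [hNa] at h1
  -- pointwise inequality
  have hpt' : ∀ ω, ENNReal.ofReal (a * Real.logb 2 a)
      + ENNReal.ofReal s * ∑ p ∈ S, (A p).indicator (fun _ => (1 : ℝ≥0∞)) ω
      ≤ (∑ p ∈ S, (T ω p : ℝ≥0∞)) + ENNReal.ofReal (s * a) := by
    intro ω
    set x : ℝ := ∑ p ∈ S, (A p).indicator (fun _ => (1 : ℝ)) ω with hx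
    have hx0 : 0 ≤ x := Finset.sum_nonneg fun p _ => Set.indicator_nonneg (fun _ _ => zero_le_one) _
    have hxe : ∑ p ∈ S, (A p).indicator (fun _ => (1 : ℝ≥0∞)) ω = ENNReal.ofReal x := by
      rw [hx, ENNReal.ofReal_sum_of_nonneg
        (fun _ _ => Set.indicator_nonneg (fun _ _ => zero_le_one) _)]
      refine Finset.sum_congr rfl fun p _ => ?_
      by_cases hpω : ω ∈ A p <;> simp [hpω]
    have hTe : (∑ p ∈ S, (T ω p : ℝ≥0∞)) = ENNReal.ofReal (∑ p ∈ S, (T ω p : ℝ)) := by
      rw [ENNReal.ofReal_sum_of_nonneg (fun _ _ => by positivity)]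
      refine Finset.sum_congr rfl fun p _ => ?_
      rw [ENNReal.ofReal_natCast]
    rw [hxe, hTe, ← ENNReal.ofReal_mul hs0, ← ENNReal.ofReal_add (by positivity) (by positivity),
      ← ENNReal.ofReal_add (Finset.sum_nonneg fun _ _ => by positivity) (by positivity)]
    apply ENNReal.ofReal_le_ofReal
    have h2 := tangent hx0 ha0
    have h3 := hpt ω
    rw [← hs] at h2
    nlinarith
  have hint := lintegral_mono (μ := μ) hpt'
  have hmA : ∀ p ∈ S, Measurable ((A p).indicator (fun _ => (1 : ℝ≥0∞))) := fun p hp =>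
    measurable_const.indicator (hA p hp)
  rw [lintegral_add_left measurable_const, lintegral_const, measure_univ, mul_one,
    lintegral_add_right _ measurable_const, lintegral_const, measure_univ, mul_one] at hint
  have hint2 : ∫⁻ ω, ENNReal.ofReal s * ∑ p ∈ S, (A p).indicator (fun _ => (1 : ℝ≥0∞)) ω ∂μ
      = ENNReal.ofReal s * ∑ p ∈ S, μ (A p) := by
    rw [lintegral_const_mul' _ _ ENNReal.ofReal_ne_top,
      lintegral_finsetSum' _ (fun p hp => (hmA p hp).aemeasurable)]
    congr 1
    refine Finset.sum_congr rfl fun p hp => ?_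
    rw [lintegral_indicator (hA p hp), lintegral_const, Measure.restrict_apply_univ, one_mul]
  rw [hint2] at hint
  have hsum : ENNReal.ofReal a ≤ ∑ p ∈ S, μ (A p) := by
    calc ENNReal.ofReal a = ∑ _p ∈ S, ENNReal.ofReal q := by
          rw [Finset.sum_const, nsmul_eq_mul, ha, mul_comm q, ENNReal.ofReal_mul (by positivity),
            ENNReal.ofReal_natCast]
      _ ≤ ∑ p ∈ S, μ (A p) := Finset.sum_le_sum hAq
  have hfin : ENNReal.ofReal (a * Real.logb 2 a) + ENNReal.ofReal (s * a)
      ≤ (∫⁻ ω, ∑ p ∈ S, (T ω p : ℝ≥0∞) ∂μ) + ENNReal.ofReal (s * a) := by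
    refine le_trans ?_ hint
    gcongr
    rw [ENNReal.ofReal_mul hs0]
    gcongr
  exact absurd h1 (not_lt.2 ((ENNReal.add_le_add_iff_right ENNReal.ofReal_ne_top).1 hfin))

/-- **Lower bound.**  Let `n ≥ 1` and `ρ ≥ 1`.  There are `(2 n - 1)!!` sequences of `2 n` points in
the plane, each sorted by strictly increasing `x`-coordinate, such that every real RAM program that
outputs, on each of them, a perfect matching of cost at most `ρ` times the minimum makes on average
over these inputs at least `log₂ (2 n - 1)!!` steps, and such that every randomised program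
(a probability measure on programs) that outputs such a matching with probability at least `q` on
each of them makes on one of them an expected number of at least `q log₂ (q (2 n - 1)!!)` steps.
Moreover `log₂ (2 n - 1)!! ≥ n (log₂ (n + 1) - 1)`. -/
theorem result (n : ℕ) (hn : 0 < n) (ρ : ℝ) (hρ : 1 ≤ ρ) :
    (n : ℝ) * (Real.logb 2 (n + 1) - 1) ≤ Real.logb 2 ((2 * n - 1)‼ : ℕ) ∧
    ∃ F : Finset (Fin (2 * n) → Plane),
      F.card = (2 * n - 1)‼ ∧
      (∀ p ∈ F, StrictMono fun i => p i 0) ∧
      (∀ Q : Program, (∀ p ∈ F, Solves Q ρ p) →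
        Real.logb 2 ((2 * n - 1)‼ : ℕ) ≤ (∑ p ∈ F, (time Q p : ℝ)) / F.card) ∧
      (∀ (Ω : Type) [MeasurableSpace Ω] (μ : Measure Ω) [IsProbabilityMeasure μ]
        (Q : Ω → Program) (q : ℝ), 0 < q →
        (∀ p ∈ F, Measurable fun ω => time (Q ω) p) →
        (∀ p ∈ F, MeasurableSet {ω | Solves (Q ω) ρ p}) →
        (∀ p ∈ F, ENNReal.ofReal q ≤ μ {ω | Solves (Q ω) ρ p}) →
        ∃ p ∈ F, ENNReal.ofReal (q * Real.logb 2 (q * ((2 * n - 1)‼ : ℕ)))
          ≤ ∫⁻ ω, (time (Q ω) p : ℝ≥0∞) ∂μ) := by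
  classical
  refine ⟨?_, ?_⟩
  · have h := doubleFactorial_lower n hn
    have h1 : Real.logb 2 ((((n : ℝ) + 1) / 2) ^ n) = n * (Real.logb 2 (n + 1) - 1) := by
      rw [Real.logb_pow, Real.logb_div (by positivity) (by norm_num),
        Real.logb_self_eq_one (by norm_num)]
    rw [← h1]
    exact Real.logb_le_logb_of_le (by norm_num) (by positivity) h
  · -- the inputs
    obtain ⟨δ, hδ0, hδ1⟩ : ∃ δ : ℝ, 0 < δ ∧ ρ * (2 * (n : ℝ) ^ 2 * δ) < 1 := by
      refine ⟨1 / (4 * ρ * (n : ℝ) ^ 2), by positivity, ?_⟩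
      have hρ0 : ρ ≠ 0 := by positivity
      have hn0 : (n : ℝ) ≠ 0 := by positivity
      have : ρ * (2 * (n : ℝ) ^ 2 * (1 / (4 * ρ * (n : ℝ) ^ 2))) = 1 / 2 := by
        field_simp
        norm_num
      rw [this]
      norm_num
    have huniq : ∀ σ, IsMatching σ → ∀ τ : Equiv.Perm (Fin (2 * n)), IsMatching τ →
        (∀ υ : Equiv.Perm (Fin (2 * n)), IsMatching υ →
          cost (inst δ σ) τ ≤ ρ * cost (inst δ σ) υ) → τ = σ := by
      intro σ hσ τ hτ h
      by_contra hne
      have h1 := h σ hσ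
      have h2 := cost_other (δ := δ) σ τ hσ hτ hne
      have h3 := cost_self hδ0.le σ hσ
      have h4 : ρ * cost (inst δ σ) σ ≤ ρ * (2 * (n : ℝ) ^ 2 * δ) :=
        mul_le_mul_of_nonneg_left h3 (by linarith)
      linarith
    have hinj : Set.InjOn (inst (n := n) δ) (matchings n : Set (Equiv.Perm (Fin (2 * n)))) := by
      intro σ hσ τ hτ heq
      have hσ' : IsMatching σ := by simpa [matchings] using hσ
      have hτ' : IsMatching τ := by simpa [matchings] using hτ
      by_contra hne
      have h2 := cost_other (δ := δ) σ τ hσ' hτ' (Ne.symm hne)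
      rw [heq] at h2
      have h3 := cost_self hδ0.le τ hτ'
      have h5 : 2 * (n : ℝ) ^ 2 * δ ≤ ρ * (2 * (n : ℝ) ^ 2 * δ) := by
        have : 0 ≤ 2 * (n : ℝ) ^ 2 * δ := by positivity
        nlinarith
      linarith
    have hcard : ((matchings n).image (inst δ)).card = (2 * n - 1)‼ := by
      rw [Finset.card_image_of_injOn hinj, card_matchings n hn]
    have hne : ((matchings n).image (inst δ)).Nonempty := by
      rw [← Finset.card_pos, hcard]
      exact Nat.doubleFactorial_pos _
    -- the bound for a deterministic program and a set of inputs on which it is correct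
    have hdet : ∀ Q : Program, ∀ G ⊆ (matchings n).image (inst δ), G.Nonempty →
        (∀ p ∈ G, Solves Q ρ p) →
        Real.logb 2 G.card ≤ (∑ p ∈ G, (time Q p : ℝ)) / G.card := by
      intro Q G hG hGne hQ
      have hout : ∀ σ, IsMatching σ → inst δ σ ∈ G →
          Halted Q (run Q (input (inst δ σ)) (time Q (inst δ σ))) ∧
          ∀ i : Fin (2 * n), (run Q (input (inst δ σ)) (time Q (inst δ σ))).int (i + 1)
            = ((σ i : ℕ) : ℤ) := by
        intro σ hσ hmem
        obtain ⟨τ, hτ, hopt, t, ht, hw⟩ := hQ _ hmem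
        have hτσ := huniq σ hσ τ hτ hopt
        subst hτσ
        refine ⟨halted_time Q _ ⟨t, ht⟩, ?_⟩
        rw [← run_eq_run_time Q _ ht]
        exact hw
      have hk := kraft G (fun p => time Q p)
        (fun p k => outcome Q (run Q (input p) k)) ?_
      · exact average_bound _ hGne _ hk
      · intro p hp q hq hle hcode
        obtain ⟨σ, hσ, rfl⟩ := Finset.mem_image.1 (hG hp)
        obtain ⟨τ, hτ, rfl⟩ := Finset.mem_image.1 (hG hq)
        have hσ' : IsMatching σ := by simpa [matchings] using hσ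
        have hτ' : IsMatching τ := by simpa [matchings] using hτ
        obtain ⟨hh1, hw1⟩ := hout σ hσ' hp
        obtain ⟨hh2, hw2⟩ := hout τ hτ' hq
        have hd : disc (run Q (input (inst δ σ)) (time Q (inst δ σ)))
            = disc (run Q (input (inst δ τ)) (time Q (inst δ σ))) :=
          disc_run_eq Q (input (inst δ σ)) (input (inst δ τ)) rfl _ hcode
        have hh3 := (halted_iff_disc Q _ _ hd).1 hh1
        have hrun := run_eq_run_time Q _ hh3
        have hint : (run Q (input (inst δ σ)) (time Q (inst δ σ))).int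
            = (run Q (input (inst δ τ)) (time Q (inst δ τ))).int := by
          rw [← hrun]
          exact congrArg Prod.snd hd
        have : σ = τ := by
          ext i
          have h1 := hw1 i
          rw [hint, hw2 i] at h1
          exact_mod_cast h1.symm
        rw [this]
    refine ⟨(matchings n).image (inst δ), hcard, ?_, ?_, ?_⟩
    · intro p hp
      obtain ⟨σ, _, rfl⟩ := Finset.mem_image.1 hp
      intro i j hij
      simp only [inst_zero]
      have : ((i : ℕ) : ℝ) < ((j : ℕ) : ℝ) := by exact_mod_cast hij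
      exact mul_lt_mul_of_pos_left this hδ0
    · intro Q hQ
      have h := hdet Q _ (Finset.Subset.refl _) hne hQ
      rwa [hcard] at h ⊢
    · intro Ω _ μ _ Q q hq hmeas hA hAq
      have h := expectation_bound μ ((matchings n).image (inst δ)) hne
        (fun ω p => time (Q ω) p) (fun p => {ω | Solves (Q ω) ρ p}) q hq hA hAq hmeas ?_
      · rwa [hcard] at h
      · intro ω
        set G := ((matchings n).image (inst δ)).filter (fun p => Solves (Q ω) ρ p) with hG
        have hx : (∑ p ∈ (matchings n).image (inst δ),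
            ({ω | Solves (Q ω) ρ p} : Set Ω).indicator (fun _ => (1 : ℝ)) ω) = G.card := by
          rw [hG, Finset.card_filter]
          push_cast
          refine Finset.sum_congr rfl fun p _ => ?_
          by_cases hp : Solves (Q ω) ρ p <;> simp [hp]
        rw [hx]
        have hle : ∑ p ∈ G, (time (Q ω) p : ℝ)
            ≤ ∑ p ∈ (matchings n).image (inst δ), (time (Q ω) p : ℝ) :=
          Finset.sum_le_sum_of_subset_of_nonneg (Finset.filter_subset _ _)
            (fun _ _ _ => by positivity)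
        refine le_trans ?_ hle
        rcases G.eq_empty_or_nonempty with h0 | h0
        · rw [h0]
          simp
        · have h2 := hdet (Q ω) G (Finset.filter_subset _ _) h0
            (fun p hp => (Finset.mem_filter.1 hp).2)
          rw [le_div_iff₀ (by exact_mod_cast h0.card_pos)] at h2
          linarith

end Pool.Agent.Results.MP_76a089_lc.RealRamLowerBound
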